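import Mathlib
import Pool.Agent.PHI.ZFin
import Pool.Agent.PHCert.Final

/-!
Both repetition thresholds of the class of codings of all exchanges of `d` intervals, up to `O(d ^ (-3 / 2))`.
-/

open Pool.Agent.Helper44.IET

namespace Pool.Agent.Results.MP_b68e99_co.AllExchanges

/-- **Theorem.** For every `d ≥ 2` both repetition thresholds of the class of codings of all irreducible
`d`-interval exchanges with Keane's condition lie between `1 + φ ^ 2 / (d - 1)` and
`1 + φ ^ 2 / (d - 1) + 100 / (d - 1) ^ (3 / 2)`, where `φ` is the golden ratio. -/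
theorem result (d : ℕ) (hd : 2 ≤ d) :
    ((1 + ((1 + Real.sqrt 5) / 2) ^ 2 / ((d : ℝ) - 1) : ℝ) : EReal) ≤ RTstar d ∧ RTstar d ≤ RT d ∧
      RT d ≤ ((1 + (((1 + Real.sqrt 5) / 2) ^ 2 + 100 / Real.sqrt ((d : ℝ) - 1)) / ((d : ℝ) - 1) : ℝ) :
        EReal) :=
  Pool.Agent.PHI.bounds Pool.Agent.PHCert.cert hd

end Pool.Agent.Results.MP_b68e99_co.AllExchanges
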