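import Mathlib
import Pool.Agent.SEV.Sys7
import Pool.Agent.RTS7.Fin7

/-!
The exact repetition threshold and asymptotic repetition threshold of codings of exchanges of seven intervals.
-/

open Pool.Agent.Helper44.IET

namespace Pool.Agent.Results.MP_b68e99_co.SevenExact

/-- **Theorem.** The repetition threshold and the asymptotic repetition threshold of the class of codings of
irreducible exchanges of seven intervals with Keane's condition both equal `(7 + √10) / 6 = 1.69371…`, and one coding
attains both infima. -/
theorem result :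
    RT 7 = (((7 + Real.sqrt 10) / 6 : ℝ) : EReal) ∧ RTstar 7 = (((7 + Real.sqrt 10) / 6 : ℝ) : EReal) ∧
      ∃ u ∈ Codings 7, critExp u = (((7 + Real.sqrt 10) / 6 : ℝ) : EReal) ∧
        asympCritExp u = (((7 + Real.sqrt 10) / 6 : ℝ) : EReal) := by
  obtain ⟨u, hu, h1, h2⟩ := Pool.Agent.SEV.mem7
  exact Pool.Agent.RTX.thresholds hu ⟨h1, h2⟩ fun v hv => Pool.Agent.RTX.low7 hv

end Pool.Agent.Results.MP_b68e99_co.SevenExact
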