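import Mathlib
import Pool.Agent.RTS.Fin
import Pool.Agent.RTS.FinR
import Pool.Agent.SYM.Up5

/-!
The exact repetition threshold and asymptotic repetition threshold of codings of symmetric exchanges of five intervals.
-/

open Pool.Agent.Helper44.IET

namespace Pool.Agent.Results.MP_b68e99_co.SymmetricFive

/-- the class of all codings of exchanges of `d` intervals with the symmetric permutation (`j` to `d + 1 - j` in the
numbering `1, …, d`) and Keane's condition -/
def SymCodings (d : ℕ) : Set (ℕ → Fin d) :=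
  {u | ∃ E : Exchange d, E.perm = Fin.revPerm ∧ E.Keane ∧ E.IsCoding u}

/-- symmetric exchanges of five intervals are irreducible, so `SymCodings 5` is a subclass of `Codings 5` -/
theorem sym_sub : SymCodings 5 ⊆ Codings 5 := by
  rintro u ⟨E, hE, hK, hu⟩
  exact ⟨E, Pool.Agent.RTX.irr_rev hE, hK, hu⟩

/-- **Theorem.** In the class of codings of symmetric exchanges of five intervals with Keane's condition the infimum of
the critical exponents is the rational number `353 / 145 = 2.43448…` and the infimum of the asymptotic critical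
exponents is the smaller number `(11 + √13) / 6 = 2.43425…`; every coding of one and the same exchange attains both. -/
theorem result :
    SymCodings 5 ⊆ Codings 5 ∧ (11 + Real.sqrt 13) / 6 < (353 / 145 : ℝ) ∧
    (⨅ (u : ℕ → Fin 5) (_ : u ∈ SymCodings 5), critExp u) = ((353 / 145 : ℝ) : EReal) ∧
    (⨅ (u : ℕ → Fin 5) (_ : u ∈ SymCodings 5), asympCritExp u) = (((11 + Real.sqrt 13) / 6 : ℝ) : EReal) ∧
    ∃ E : Exchange 5, E.perm = Fin.revPerm ∧ E.Keane ∧ (∃ u, E.IsCoding u) ∧
      ∀ u, E.IsCoding u → critExp u = ((353 / 145 : ℝ) : EReal) ∧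
        asympCritExp u = (((11 + Real.sqrt 13) / 6 : ℝ) : EReal) := by
  have hp : Pool.Agent.SYM.E5.perm = Fin.revPerm := Pool.Agent.SYM.perm5
  have hK := Pool.Agent.SYM.keane5
  have key : ∀ u, Pool.Agent.SYM.E5.IsCoding u → critExp u = ((353 / 145 : ℝ) : EReal) ∧
      asympCritExp u = (((11 + Real.sqrt 13) / 6 : ℝ) : EReal) := fun u hu =>
    ⟨le_antisymm (Pool.Agent.SYM.upX hu) (Pool.Agent.RTX.low5r hp hK hu),
      le_antisymm (Pool.Agent.SYM.up5 hu) (Pool.Agent.RTX.low5s hp hK hu).2⟩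
  obtain ⟨w, hw⟩ := Pool.Agent.SYM.cod_ex
  have hmem : w ∈ SymCodings 5 := ⟨_, hp, hK, hw⟩
  have hs : (11 + Real.sqrt 13) / 6 < (353 / 145 : ℝ) := by
    have h : Real.sqrt 13 < 3.606 := by
      rw [show (3.606 : ℝ) = Real.sqrt (3.606 ^ 2) by rw [Real.sqrt_sq (by norm_num)]]
      exact Real.sqrt_lt_sqrt (by norm_num) (by norm_num)
    linarith
  refine ⟨sym_sub, hs, le_antisymm ?_ ?_, le_antisymm ?_ ?_, _, hp, hK, ⟨w, hw⟩, key⟩
  · exact le_trans (iInf₂_le w hmem) (Pool.Agent.SYM.upX hw)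
  · refine le_iInf₂ fun v hv => ?_
    obtain ⟨E, hE, hK', hv'⟩ := hv
    exact Pool.Agent.RTX.low5r hE hK' hv'
  · exact le_trans (iInf₂_le w hmem) (Pool.Agent.SYM.up5 hw)
  · refine le_iInf₂ fun v hv => ?_
    obtain ⟨E, hE, hK', hv'⟩ := hv
    exact (Pool.Agent.RTX.low5s hE hK' hv').2

end Pool.Agent.Results.MP_b68e99_co.SymmetricFive
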