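import Mathlib
import Pool.Agent.Helper28.IET3.Final
import Pool.Agent.RTX.Fin4
import Pool.Agent.RTX.Fin5
import Pool.Agent.RTX.Fin6

/-!
The exact repetition thresholds and asymptotic repetition thresholds of codings of exchanges of three, four, five and
six intervals.
-/

open Pool.Agent.Helper44.IET

namespace Pool.Agent.Results.MP_b68e99_co.ThreeToSix

/-- **Theorem.** The repetition threshold and the asymptotic repetition threshold of the class of codings of
irreducible exchanges of `d` intervals with Keane's condition both equal `2 + √2 / 2` for `d = 3`, `(7 + √5) / 4` for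
`d = 4`, `(5 + √5) / 4` for `d = 5` and `(15 + √5) / 10` for `d = 6`, and in each case one coding attains both
infima. -/
theorem result :
    (RT 3 = ((2 + Real.sqrt 2 / 2 : ℝ) : EReal) ∧ RTstar 3 = ((2 + Real.sqrt 2 / 2 : ℝ) : EReal) ∧
      ∃ u ∈ Codings 3, critExp u = ((2 + Real.sqrt 2 / 2 : ℝ) : EReal) ∧
        asympCritExp u = ((2 + Real.sqrt 2 / 2 : ℝ) : EReal)) ∧
    (RT 4 = (((7 + Real.sqrt 5) / 4 : ℝ) : EReal) ∧ RTstar 4 = (((7 + Real.sqrt 5) / 4 : ℝ) : EReal) ∧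
      ∃ u ∈ Codings 4, critExp u = (((7 + Real.sqrt 5) / 4 : ℝ) : EReal) ∧
        asympCritExp u = (((7 + Real.sqrt 5) / 4 : ℝ) : EReal)) ∧
    (RT 5 = (((5 + Real.sqrt 5) / 4 : ℝ) : EReal) ∧ RTstar 5 = (((5 + Real.sqrt 5) / 4 : ℝ) : EReal) ∧
      ∃ u ∈ Codings 5, critExp u = (((5 + Real.sqrt 5) / 4 : ℝ) : EReal) ∧
        asympCritExp u = (((5 + Real.sqrt 5) / 4 : ℝ) : EReal)) ∧
    (RT 6 = (((15 + Real.sqrt 5) / 10 : ℝ) : EReal) ∧ RTstar 6 = (((15 + Real.sqrt 5) / 10 : ℝ) : EReal) ∧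
      ∃ u ∈ Codings 6, critExp u = (((15 + Real.sqrt 5) / 10 : ℝ) : EReal) ∧
        asympCritExp u = (((15 + Real.sqrt 5) / 10 : ℝ) : EReal)) :=
  ⟨Pool.Agent.Helper28.IET3.thresholds3, Pool.Agent.RTX.thr4, Pool.Agent.RTX.thr5, Pool.Agent.RTX.thr6⟩

end Pool.Agent.Results.MP_b68e99_co.ThreeToSix
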